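import Mathlib

/-!
A spectral inequality for functions of bounded level on a product space.

`ι` indexes the primes, `m i` is the prime, `α i` the set of residue classes.
-/

set_option autoImplicit false

namespace Pool.Agent.H76.BR

open Finset

/-! ### Random subsets of a list -/

section Sub

variable {ι : Type} [DecidableEq ι] (m : ι → ℝ)

/-- Expectation over a random subset of the list: `q` is chosen with probability `1 / m q`. -/
noncomputable def EB : List ι → (Finset ι → ℝ) → ℝ
  | [], F => F ∅
  | (q :: l), F => (1 - 1 / m q) * EB l F + 1 / m q * EB l (fun B => F (insert q B))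

/-- The energy. -/
noncomputable def En : List ι → (Finset ι → ℝ) → ℝ
  | [], _ => 0
  | (q :: l), F => (1 - 1 / m q) * En l F + 1 / m q * En l (fun B => F (insert q B)) +
      Real.log (m q) / m q * ((1 - 1 / m q) * EB m l (fun B => (F (insert q B) - F B) ^ 2))

/-- The constant. -/
noncomputable def SS : List ι → ℝ
  | [] => 0
  | (q :: l) => (SS l + 1 / (m q * Real.log (m q))) / (1 - 1 / m q)

variable {m}

theorem EB_add (l : List ι) (F G : Finset ι → ℝ) :
    EB m l (fun B => F B + G B) = EB m l F + EB m l G := by
  induction l generalizing F G with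
  | nil => rfl
  | cons q l ih =>
    simp only [EB]
    rw [ih, ih (fun B => F (insert q B))]
    ring

theorem EB_smul (l : List ι) (c : ℝ) (F : Finset ι → ℝ) :
    EB m l (fun B => c * F B) = c * EB m l F := by
  induction l generalizing F with
  | nil => rfl
  | cons q l ih =>
    simp only [EB]
    rw [ih, ih (fun B => F (insert q B))]
    ring

theorem EB_sub (l : List ι) (F G : Finset ι → ℝ) :
    EB m l (fun B => F B - G B) = EB m l F - EB m l G := by
  induction l generalizing F G with
  | nil => rfl
  | cons q l ih =>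
    simp only [EB]
    rw [ih, ih (fun B => F (insert q B))]
    ring

theorem EB_nonneg (l : List ι) (hm : ∀ q ∈ l, 1 < m q) (F : Finset ι → ℝ) (hF : ∀ B, 0 ≤ F B) :
    0 ≤ EB m l F := by
  induction l generalizing F with
  | nil => exact hF ∅
  | cons q l ih =>
    have hq := hm q (by simp)
    have h1 : 1 / m q < 1 := by rw [div_lt_one (by linarith)]; exact hq
    have h2 : 0 < 1 / m q := by positivity
    have h3 := ih (fun p hp => hm p (by simp [hp])) F hF
    have h4 := ih (fun p hp => hm p (by simp [hp])) (fun B => F (insert q B)) (fun B => hF _)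
    simp only [EB]
    have h5 : 0 ≤ (1 - 1 / m q) * EB m l F := mul_nonneg (by linarith) h3
    have h6 := mul_nonneg h2.le h4
    linarith

theorem EB_mono (l : List ι) (hm : ∀ q ∈ l, 1 < m q) (F G : Finset ι → ℝ) (hF : ∀ B, F B ≤ G B) :
    EB m l F ≤ EB m l G := by
  have h := EB_nonneg l hm (fun B => G B - F B) (fun B => by linarith [hF B])
  rw [EB_sub] at h
  linarith

/-- Jensen. -/
theorem EB_sq (l : List ι) (hm : ∀ q ∈ l, 1 < m q) (F : Finset ι → ℝ) :
    (EB m l F) ^ 2 ≤ EB m l (fun B => (F B) ^ 2) := by
  induction l generalizing F with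
  | nil => exact le_rfl
  | cons q l ih =>
    have hq := hm q (by simp)
    have h1 : 1 / m q < 1 := by rw [div_lt_one (by linarith)]; exact hq
    have h2 : 0 < 1 / m q := by positivity
    have h3 := ih (fun p hp => hm p (by simp [hp])) F
    have h4 := ih (fun p hp => hm p (by simp [hp])) (fun B => F (insert q B))
    simp only [EB]
    set a := EB m l F
    set b := EB m l (fun B => F (insert q B))
    set t := 1 / m q
    have h5 : ((1 - t) * a + t * b) ^ 2 ≤ (1 - t) * a ^ 2 + t * b ^ 2 := by
      nlinarith [mul_nonneg (mul_nonneg (by linarith : 0 ≤ 1 - t) h2.le) (sq_nonneg (a - b))]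
    have h6 := mul_le_mul_of_nonneg_left h3 (by linarith : 0 ≤ 1 - t)
    have h7 := mul_le_mul_of_nonneg_left h4 h2.le
    linarith

theorem En_nonneg (l : List ι) (hm : ∀ q ∈ l, 1 < m q) (F : Finset ι → ℝ) : 0 ≤ En m l F := by
  induction l generalizing F with
  | nil => exact le_rfl
  | cons q l ih =>
    have hq := hm q (by simp)
    have h1 : 1 / m q < 1 := by rw [div_lt_one (by linarith)]; exact hq
    have h2 : 0 < 1 / m q := by positivity
    have h3 := ih (fun p hp => hm p (by simp [hp])) F
    have h4 := ih (fun p hp => hm p (by simp [hp])) (fun B => F (insert q B))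
    have h5 := EB_nonneg l (fun p hp => hm p (by simp [hp])) (fun B => (F (insert q B) - F B) ^ 2)
      (fun B => sq_nonneg _)
    have hlog : 0 < Real.log (m q) := Real.log_pos hq
    simp only [En]
    have h6 : 0 ≤ (1 - 1 / m q) := by linarith
    have h7 : 0 < m q := by linarith
    positivity

theorem SS_nonneg (l : List ι) (hm : ∀ q ∈ l, 1 < m q) : 0 ≤ SS m l := by
  induction l with
  | nil => exact le_rfl
  | cons q l ih =>
    have hq := hm q (by simp)
    have h1 : 1 / m q < 1 := by rw [div_lt_one (by linarith)]; exact hq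
    have h3 := ih (fun p hp => hm p (by simp [hp]))
    have hlog : 0 < Real.log (m q) := Real.log_pos hq
    simp only [SS]
    have h6 : 0 ≤ (1 - 1 / m q) := by linarith
    have h7 : 0 < m q := by linarith
    positivity

theorem cs_two {a b s t A B : ℝ} (hs : 0 ≤ s) (ht : 0 ≤ t) (hA : 0 ≤ A) (hB : 0 ≤ B)
    (ha : a ^ 2 ≤ s * A) (hb : b ^ 2 ≤ t * B) : (a + b) ^ 2 ≤ (s + t) * (A + B) := by
  have h1 : (2 * (a * b)) ^ 2 ≤ (s * B + t * A) ^ 2 := by
    have h2 : (a * b) ^ 2 ≤ (s * A) * (t * B) := by
      rw [mul_pow]; exact mul_le_mul ha hb (sq_nonneg _) (by positivity)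
    nlinarith [sq_nonneg (s * B - t * A)]
  have h3 : 2 * (a * b) ≤ s * B + t * A :=
    le_of_sq_le_sq h1 (by positivity)
  nlinarith

theorem mean_le (l : List ι) (hm : ∀ q ∈ l, 1 < m q) (F : Finset ι → ℝ) :
    (EB m l F - F ∅) ^ 2 ≤ SS m l * En m l F := by
  induction l generalizing F with
  | nil => simp [EB, SS]
  | cons q l ih =>
    have hq := hm q (by simp)
    have hm' : ∀ p ∈ l, 1 < m p := fun p hp => hm p (by simp [hp])
    have hq0 : 0 < m q := by linarith
    have h1 : 1 / m q < 1 := by rw [div_lt_one hq0]; exact hq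
    have h2 : 0 < 1 / m q := by positivity
    have hlog : 0 < Real.log (m q) := Real.log_pos hq
    have h3 := ih hm' F
    have hS := SS_nonneg l hm'
    have hE0 := En_nonneg l hm' F
    have hE1 := En_nonneg l hm' (fun B => F (insert q B))
    have hD := EB_nonneg l hm' (fun B => (F (insert q B) - F B) ^ 2) (fun B => sq_nonneg _)
    have hJ := EB_sq l hm' (fun B => F (insert q B) - F B)
    rw [EB_sub] at hJ
    have hcs := cs_two (a := EB m l F - F ∅)
      (b := 1 / m q * (EB m l (fun B => F (insert q B)) - EB m l F))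
      (t := 1 / (m q * Real.log (m q)))
      (B := Real.log (m q) / m q * EB m l (fun B => (F (insert q B) - F B) ^ 2)) hS
      (by positivity) hE0 (by positivity) h3
      (by
        rw [mul_pow]
        have e : 1 / (m q * Real.log (m q)) *
          (Real.log (m q) / m q * EB m l (fun B => (F (insert q B) - F B) ^ 2)) =
          (1 / m q) ^ 2 * EB m l (fun B => (F (insert q B) - F B) ^ 2) := by
          field_simp
        rw [e]
        exact mul_le_mul_of_nonneg_left hJ (by positivity))
    have e1 : EB m (q :: l) F - F ∅ = EB m l F - F ∅ +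
        1 / m q * (EB m l (fun B => F (insert q B)) - EB m l F) := by
      simp only [EB]; ring
    rw [e1]
    refine hcs.trans ?_
    have h6 : 0 < 1 - 1 / m q := by linarith
    have e2 : (SS m l + 1 / (m q * Real.log (m q))) = SS m (q :: l) * (1 - 1 / m q) := by
      simp only [SS]
      rw [div_mul_cancel₀ _ h6.ne']
    rw [e2, mul_assoc]
    apply mul_le_mul_of_nonneg_left _ (SS_nonneg (q :: l) hm)
    simp only [En]
    have h7 := mul_nonneg h2.le hE1
    nlinarith

theorem var_le (l : List ι) (hm : ∀ q ∈ l, 1 < m q) (lam : ℝ) (hlam : 0 ≤ lam)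
    (hl : ∀ q ∈ l, lam ≤ Real.log (m q)) (F : Finset ι → ℝ) :
    lam * (EB m l (fun B => (F B) ^ 2) - (EB m l F) ^ 2) ≤ En m l F := by
  induction l generalizing F with
  | nil => simp [EB, En]
  | cons q l ih =>
    have hq := hm q (by simp)
    have hm' : ∀ p ∈ l, 1 < m p := fun p hp => hm p (by simp [hp])
    have hl' : ∀ p ∈ l, lam ≤ Real.log (m p) := fun p hp => hl p (by simp [hp])
    have hq0 : 0 < m q := by linarith
    have h1 : 1 / m q < 1 := by rw [div_lt_one hq0]; exact hq
    have h2 : 0 < 1 / m q := by positivity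
    have h6 : 0 < 1 - 1 / m q := by linarith
    have hlog : lam ≤ Real.log (m q) := hl q (by simp)
    have h3 := ih hm' hl' F
    have h4 := ih hm' hl' (fun B => F (insert q B))
    have hD := EB_nonneg l hm' (fun B => (F (insert q B) - F B) ^ 2) (fun B => sq_nonneg _)
    have hJ := EB_sq l hm' (fun B => F (insert q B) - F B)
    rw [EB_sub] at hJ
    simp only [EB, En]
    set a := EB m l F
    set b := EB m l (fun B => F (insert q B))
    set a2 := EB m l (fun B => (F B) ^ 2)
    set b2 := EB m l (fun B => (F (insert q B)) ^ 2)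
    set D := EB m l (fun B => (F (insert q B) - F B) ^ 2)
    have h5 : Real.log (m q) / m q * ((1 - 1 / m q) * D) =
        Real.log (m q) * (1 / m q * ((1 - 1 / m q) * D)) := by ring
    rw [h5]
    set t := 1 / m q with ht
    have h7 : t * ((1 - t) * (b - a) ^ 2) ≤ t * ((1 - t) * D) :=
      mul_le_mul_of_nonneg_left (mul_le_mul_of_nonneg_left hJ h6.le) h2.le
    have h8 : lam * (t * ((1 - t) * (b - a) ^ 2)) ≤ Real.log (m q) * (t * ((1 - t) * D)) :=
      mul_le_mul hlog h7 (by positivity) (by linarith)
    have h9 := mul_le_mul_of_nonneg_left h3 h6.le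
    have h10 := mul_le_mul_of_nonneg_left h4 h2.le
    have e : lam * ((1 - t) * a2 + t * b2 - ((1 - t) * a + t * b) ^ 2) =
        (1 - t) * (lam * (a2 - a ^ 2)) + t * (lam * (b2 - b ^ 2)) +
          lam * (t * ((1 - t) * (b - a) ^ 2)) := by ring
    rw [e]
    linarith

theorem En_sum (l : List ι) (F : Finset ι → ℝ) : En m l F =
    (l.map (fun p => Real.log (m p) / m p *
      EB m l (fun B => (F (insert p B) - F B) ^ 2))).sum := by
  induction l generalizing F with
  | nil => simp [En]
  | cons q l ih =>
    have e1 : ∀ p, EB m (q :: l) (fun B => (F (insert p B) - F B) ^ 2) =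
        (1 - 1 / m q) * EB m l (fun B => (F (insert p B) - F B) ^ 2) +
        1 / m q * EB m l (fun B => (F (insert q (insert p B)) - F (insert q B)) ^ 2) := by
      intro p
      simp only [EB]
      congr 2
      congr 1
      funext B
      rw [Finset.insert_comm]
    have e2 : EB m (q :: l) (fun B => (F (insert q B) - F B) ^ 2) =
        (1 - 1 / m q) * EB m l (fun B => (F (insert q B) - F B) ^ 2) := by
      rw [e1]
      have : EB m l (fun B => (F (insert q (insert q B)) - F (insert q B)) ^ 2) = 0 := by
        have h := EB_smul (m := m) l 0 (fun B => (0 : ℝ))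
        simp only [Finset.insert_idem, sub_self]
        simpa using h
      rw [this]; ring
    rw [List.map_cons, List.sum_cons, e2]
    simp only [En]
    rw [ih F, ih (fun B => F (insert q B))]
    have e3 : (l.map (fun p => Real.log (m p) / m p *
      EB m (q :: l) (fun B => (F (insert p B) - F B) ^ 2))).sum =
      (1 - 1 / m q) * (l.map (fun p => Real.log (m p) / m p *
      EB m l (fun B => (F (insert p B) - F B) ^ 2))).sum + 1 / m q *
      (l.map (fun p => Real.log (m p) / m p *
      EB m l (fun B => (F (insert q (insert p B)) - F (insert q B)) ^ 2))).sum := by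
      rw [← List.sum_map_mul_left, ← List.sum_map_mul_left, ← List.sum_map_add]
      congr 1
      apply List.map_congr_left
      intro p _
      rw [e1]; ring
    rw [e3]
    ring

theorem sq_le (l : List ι) (hm : ∀ q ∈ l, 1 < m q) (lam : ℝ) (hlam : 0 < lam)
    (hl : ∀ q ∈ l, lam ≤ Real.log (m q)) (F : Finset ι → ℝ) :
    EB m l (fun B => (F B) ^ 2) ≤ 2 * (F ∅) ^ 2 + (1 / lam + 2 * SS m l) * En m l F := by
  have h1 := var_le l hm lam hlam.le hl F
  have h2 := mean_le l hm F
  have h3 : EB m l (fun B => (F B) ^ 2) - (EB m l F) ^ 2 ≤ 1 / lam * En m l F := by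
    rw [one_div_mul_eq_div, le_div_iff₀ hlam]; linarith
  nlinarith [sq_nonneg (EB m l F - 2 * F ∅)]

end Sub

/-! ### The product space -/

section Prod

variable {ι : Type} [Fintype ι] [DecidableEq ι] {α : ι → Type} [∀ i, Fintype (α i)]
  [∀ i, DecidableEq (α i)] [∀ i, Nonempty (α i)]

/-- Number of values of a coordinate. -/
noncomputable def mm (α : ι → Type) [∀ i, Fintype (α i)] (i : ι) : ℝ := Fintype.card (α i)

omit [DecidableEq ι] [Fintype ι] [∀ i, DecidableEq (α i)] in
theorem mm_pos (i : ι) : 0 < mm α i := by
  unfold mm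
  exact_mod_cast Fintype.card_pos

/-- Fubini for one coordinate. -/
theorem fub (q : ι) (φ : (∀ i, α i) → ℝ) :
    ∑ x, φ x = 1 / mm α q * ∑ x, ∑ j : α q, φ (Function.update x q j) := by
  have h1 : ∑ x : (∀ i, α i), ∑ j : α q, φ (Function.update x q j) = mm α q * ∑ x, φ x := by
    have h2 : ∑ x : (∀ i, α i), ∑ j : α q, φ (Function.update x q j) =
        ∑ p : (∀ i, α i) × α q, φ (Function.update p.1 q p.2) := by
      rw [Fintype.sum_prod_type]
    rw [h2]
    -- the involution (x, j) ↦ (update x q j, x q)
    have h3 : ∑ p : (∀ i, α i) × α q, φ (Function.update p.1 q p.2) =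
        ∑ p : (∀ i, α i) × α q, φ p.1 := by
      refine Fintype.sum_bijective
        (fun p : (∀ i, α i) × α q => (Function.update p.1 q p.2, p.1 q)) ?_ _ _ ?_
      · apply Function.Involutive.bijective
        rintro ⟨x, j⟩
        simp
      · rintro ⟨x, j⟩
        rfl
    rw [h3, Fintype.sum_prod_type]
    simp only [sum_const, nsmul_eq_mul, card_univ]
    rw [← mul_sum]
    rfl
  rw [h1]
  have := mm_pos (α := α) q
  field_simp

/-- Replace the coordinates in `B` by those of `a`. -/
def mix (a : ∀ i, α i) (B : Finset ι) (y : ∀ i, α i) : ∀ i, α i :=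
  fun i => if i ∈ B then a i else y i

omit [Fintype ι] [∀ i, Fintype (α i)] [∀ i, DecidableEq (α i)] [∀ i, Nonempty (α i)] in
theorem mix_empty (a y : ∀ i, α i) : mix a ∅ y = y := by
  funext i; simp [mix]

omit [Fintype ι] [∀ i, Fintype (α i)] [∀ i, DecidableEq (α i)] [∀ i, Nonempty (α i)] in
theorem mix_insert (a y : ∀ i, α i) (q : ι) (B : Finset ι) :
    mix a (insert q B) y = mix a B (Function.update y q (a q)) := by
  funext i
  by_cases h : i = q
  · subst h; by_cases h2 : i ∈ B <;> simp [mix, h2]
  · by_cases h2 : i ∈ B <;> simp [mix, h, h2]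

omit [Fintype ι] [∀ i, Fintype (α i)] [∀ i, DecidableEq (α i)] [∀ i, Nonempty (α i)] in
theorem mix_insert' (a y : ∀ i, α i) (q : ι) (B : Finset ι) :
    mix a (insert q B) y = Function.update (mix a B y) q (a q) := by
  funext i
  by_cases h : i = q
  · subst h; by_cases h2 : i ∈ B <;> simp [mix]
  · by_cases h2 : i ∈ B <;> simp [mix, h, h2]

/-- The indicator function of `y i ≠ a i` for all `i ∈ l`. -/
noncomputable def ind (a : ∀ i, α i) (l : List ι) (y : ∀ i, α i) : ℝ :=
  if ∀ i ∈ l, y i ≠ a i then 1 else 0

theorem ind_cons (a : ∀ i, α i) (q : ι) (l : List ι) (y : ∀ i, α i) :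
    ind a (q :: l) y = (if y q ≠ a q then 1 else 0) * ind a l y := by
  unfold ind
  by_cases h1 : y q ≠ a q
  · by_cases h2 : ∀ i ∈ l, y i ≠ a i
    · rw [if_pos h1, if_pos h2, if_pos, one_mul]
      intro i hi
      rcases List.mem_cons.1 hi with rfl | hi
      · exact h1
      · exact h2 i hi
    · rw [if_neg h2, mul_zero, if_neg]
      intro h3
      exact h2 fun i hi => h3 i (List.mem_cons_of_mem _ hi)
  · rw [if_neg h1, zero_mul, if_neg]
    intro h3
    exact h1 (h3 q (by simp))

theorem ind_update (a : ∀ i, α i) (q : ι) (l : List ι) (hq : q ∉ l) (y : ∀ i, α i) (j : α q) :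
    ind a l (Function.update y q j) = ind a l y := by
  unfold ind
  congr 1
  apply propext
  constructor
  · intro h i hi
    have := h i hi
    rwa [Function.update_of_ne] at this
    rintro rfl; exact hq hi
  · intro h i hi
    rw [Function.update_of_ne]
    · exact h i hi
    · rintro rfl; exact hq hi

/-- Random killing of the coordinates. -/
theorem kill_sum (a : ∀ i, α i) (l : List ι) (hl : l.Nodup) (g : (∀ i, α i) → ℝ) :
    ∑ y, ind a l y * EB (mm α) l (fun B => g (mix a B y)) =
      (l.map (fun q => 1 - 1 / mm α q)).prod * ∑ x, g x := by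
  induction l generalizing g with
  | nil => simp [ind, EB, mix_empty]
  | cons q l ih =>
    have hq : q ∉ l := (List.nodup_cons.1 hl).1
    have hl' := (List.nodup_cons.1 hl).2
    have hm := mm_pos (α := α) q
    set G : (∀ i, α i) → ℝ := fun y => EB (mm α) l (fun B => g (mix a B y)) with hG
    have e1 : ∀ y, EB (mm α) (q :: l) (fun B => g (mix a B y)) =
        (1 - 1 / mm α q) * G y + 1 / mm α q * G (Function.update y q (a q)) := by
      intro y
      simp only [EB, hG]
      congr 2
      congr 1
      funext B
      rw [mix_insert]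
    have e2 : ∑ y, ind a (q :: l) y * EB (mm α) (q :: l) (fun B => g (mix a B y)) =
        (1 - 1 / mm α q) * ∑ y, (if y q ≠ a q then 1 else 0) * (ind a l y * G y) +
        1 / mm α q * ∑ y, (if y q ≠ a q then 1 else 0) *
          (ind a l y * G (Function.update y q (a q))) := by
      rw [mul_sum, mul_sum, ← sum_add_distrib]
      apply sum_congr rfl
      intro y _
      rw [e1, ind_cons]; ring
    have hcard : ∑ j : α q, (if j ≠ a q then (1 : ℝ) else 0) = mm α q - 1 := by
      have h1 : ∑ j : α q, (if j ≠ a q then (1 : ℝ) else 0) =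
          ∑ j : α q, (1 - if j = a q then (1 : ℝ) else 0) := by
        apply sum_congr rfl
        intro j _
        by_cases h : j = a q <;> simp [h]
      rw [h1, sum_sub_distrib, sum_ite_eq']
      simp [mm]
    have e3 : ∑ y, (if y q ≠ a q then 1 else 0) * (ind a l y * G (Function.update y q (a q))) =
        (1 / mm α q * (mm α q - 1)) * ∑ y, ind a l y * G (Function.update y q (a q)) := by
      rw [fub q]
      have h1 : ∑ x : (∀ i, α i), ∑ j : α q,
          (if (Function.update x q j) q ≠ a q then (1 : ℝ) else 0) *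
          (ind a l (Function.update x q j) * G (Function.update (Function.update x q j) q (a q))) =
          (mm α q - 1) * ∑ y, ind a l y * G (Function.update y q (a q)) := by
        rw [mul_sum]
        apply sum_congr rfl
        intro x _
        rw [← hcard, sum_mul]
        apply sum_congr rfl
        intro j _
        rw [Function.update_self, ind_update a q l hq, Function.update_idem]
      rw [h1]; ring
    have e4 : ∑ y, (if y q = a q then (1 : ℝ) else 0) * (ind a l y * G y) =
        1 / mm α q * ∑ y, ind a l y * G (Function.update y q (a q)) := by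
      rw [fub q]
      congr 1
      apply sum_congr rfl
      intro x _
      have h1 : ∀ j : α q, (if (Function.update x q j) q = a q then (1 : ℝ) else 0) *
          (ind a l (Function.update x q j) * G (Function.update x q j)) =
          if j = a q then ind a l x * G (Function.update x q (a q)) else 0 := by
        intro j
        rw [Function.update_self, ind_update a q l hq]
        by_cases h : j = a q
        · simp [h]
        · simp [h]
      simp_rw [h1]
      rw [sum_ite_eq']
      simp
    have e5 : ∑ y, ind a l y * G y = ∑ y, (if y q ≠ a q then 1 else 0) * (ind a l y * G y) +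
        ∑ y, (if y q = a q then (1 : ℝ) else 0) * (ind a l y * G y) := by
      rw [← sum_add_distrib]
      apply sum_congr rfl
      intro y _
      by_cases h : y q = a q <;> simp [h]
    have e6 : ∑ y, ind a l y * G y = (l.map (fun q => 1 - 1 / mm α q)).prod * ∑ x, g x :=
      ih hl' g
    rw [e5, e4] at e6
    rw [e2, e3, List.map_cons, List.prod_cons,
      mul_assoc (1 - 1 / mm α q) (List.map (fun q => 1 - 1 / mm α q) l).prod, ← e6]
    field_simp

/-- The inequality for one point. -/
theorem one_point (a : ∀ i, α i) (l : List ι) (hl : l.Nodup) (hmem : ∀ i, i ∈ l)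
    (hm : ∀ i, 1 < mm α i) (lam : ℝ) (hlam : 0 < lam) (hlog : ∀ i, lam ≤ Real.log (mm α i))
    (V : (∀ i, α i) → ℝ) :
    (l.map (fun q => 1 - 1 / mm α q)).prod * ∑ x, (V x) ^ 2 ≤
      2 * ∑ x, (if ∀ i, x i ≠ a i then 1 else 0) * (V x) ^ 2 +
      (1 / lam + 2 * SS (mm α) l) * ((l.map (fun q => 1 - 1 / mm α q)).prod *
        ∑ p, Real.log (mm α p) / mm α p * ∑ x, (V (Function.update x p (a p)) - V x) ^ 2) := by
  have hind : ∀ y, ind a l y = if ∀ i, y i ≠ a i then 1 else 0 := by
    intro y
    unfold ind
    congr 1
    apply propext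
    exact ⟨fun h i => h i (hmem i), fun h i _ => h i⟩
  have hind0 : ∀ y, 0 ≤ ind a l y := by
    intro y; unfold ind; split_ifs <;> norm_num
  rw [← kill_sum a l hl (fun x => (V x) ^ 2)]
  have h1 : ∀ y, ind a l y * EB (mm α) l (fun B => (V (mix a B y)) ^ 2) ≤
      2 * (ind a l y * (V y) ^ 2) + (1 / lam + 2 * SS (mm α) l) *
        (ind a l y * En (mm α) l (fun B => V (mix a B y))) := by
    intro y
    have h2 := sq_le l (fun q _ => hm q) lam hlam (fun q _ => hlog q) (fun B => V (mix a B y))
    simp only [mix_empty] at h2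
    have h3 := mul_le_mul_of_nonneg_left h2 (hind0 y)
    linarith
  refine (sum_le_sum fun y _ => h1 y).trans ?_
  rw [sum_add_distrib, ← mul_sum, ← mul_sum]
  simp only [hind]
  apply add_le_add le_rfl
  apply mul_le_mul_of_nonneg_left _
    (by have := SS_nonneg (m := mm α) l (fun q _ => hm q); positivity)
  -- the energy
  have htf : l.toFinset = univ := by
    ext i; simp [hmem i]
  have hls : ∀ f : ι → ℝ, (l.map f).sum = ∑ p, f p := by
    intro f
    rw [← List.sum_toFinset f hl, htf]
  have h5 : ∀ y, (if ∀ i, y i ≠ a i then (1 : ℝ) else 0) *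
      En (mm α) l (fun B => V (mix a B y)) =
      ∑ p, Real.log (mm α p) / mm α p * (ind a l y *
        EB (mm α) l (fun B => (V (Function.update (mix a B y) p (a p)) -
          V (mix a B y)) ^ 2)) := by
    intro y
    rw [← hind, En_sum, hls, mul_sum]
    apply sum_congr rfl
    intro p _
    simp only [mix_insert']
    ring
  rw [sum_congr rfl fun y _ => h5 y, sum_comm, mul_sum]
  apply le_of_eq
  apply sum_congr rfl
  intro p _
  rw [← mul_sum, kill_sum a l hl (fun x => (V (Function.update x p (a p)) - V x) ^ 2)]
  ring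

end Prod

end Pool.Agent.H76.BR
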