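import Mathlib
import Pool.Agent.H76.BR.Abs

/-!
Functions of bounded level on a product space: the Dirichlet form with weights `log m i` is
bounded by the logarithm of the level.
-/

set_option autoImplicit false
set_option linter.unusedSectionVars false

namespace Pool.Agent.H76.BR

open Finset

section Lev

variable {ι : Type} [Fintype ι] [DecidableEq ι] {α : ι → Type} [∀ i, Fintype (α i)]
  [∀ i, DecidableEq (α i)] [∀ i, Nonempty (α i)]

/-- Averaging over the coordinate `q`. -/
noncomputable def Mq (q : ι) : ((∀ i, α i) → ℝ) →ₗ[ℝ] ((∀ i, α i) → ℝ) where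
  toFun V := fun x => 1 / mm α q * ∑ j, V (Function.update x q j)
  map_add' V W := by
    funext x
    simp only [Pi.add_apply, sum_add_distrib]
    ring
  map_smul' c V := by
    funext x
    simp only [Pi.smul_apply, smul_eq_mul, RingHom.id_apply, ← mul_sum]
    ring

theorem Mq_apply (q : ι) (V : (∀ i, α i) → ℝ) (x : ∀ i, α i) :
    Mq q V x = 1 / mm α q * ∑ j, V (Function.update x q j) := rfl

theorem Mq_update (q : ι) (V : (∀ i, α i) → ℝ) (x : ∀ i, α i) (j : α q) :
    Mq q V (Function.update x q j) = Mq q V x := by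
  rw [Mq_apply, Mq_apply]
  simp only [Function.update_idem]

theorem Mq_comm (p q : ι) (hpq : p ≠ q) (V : (∀ i, α i) → ℝ) : Mq p (Mq q V) = Mq q (Mq p V) := by
  funext x
  simp only [Mq_apply, mul_sum]
  rw [sum_comm]
  apply sum_congr rfl
  intro i _
  apply sum_congr rfl
  intro j _
  rw [Function.update_comm hpq]
  ring

theorem Mq_inv (p q : ι) (hpq : p ≠ q) (V : (∀ i, α i) → ℝ)
    (h : ∀ x (j : α p), V (Function.update x p j) = V x) (x : ∀ i, α i) (j : α p) :
    Mq q V (Function.update x p j) = Mq q V x := by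
  simp only [Mq_apply]
  congr 1
  apply sum_congr rfl
  intro i _
  rw [Function.update_comm hpq, h]

theorem Mq_adj (q : ι) (V W : (∀ i, α i) → ℝ) :
    ∑ x, Mq q V x * W x = ∑ x, Mq q V x * Mq q W x := by
  rw [fub q, mul_sum]
  apply sum_congr rfl
  intro x _
  simp only [Mq_update]
  rw [← mul_sum, Mq_apply q W x]
  ring

/-- The local variance. -/
noncomputable def dd (q : ι) (V : (∀ i, α i) → ℝ) : ℝ := ∑ x, (V x) ^ 2 - ∑ x, (Mq q V x) ^ 2

theorem pyth (q : ι) (V : (∀ i, α i) → ℝ) :
    ∑ x, (V x) ^ 2 = ∑ x, (Mq q V x) ^ 2 + ∑ x, ((V - Mq q V) x) ^ 2 := by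
  have h := Mq_adj q V V
  have h1 : ∑ x, ((V - Mq q V) x) ^ 2 = ∑ x, (V x) ^ 2 - 2 * ∑ x, Mq q V x * V x +
      ∑ x, (Mq q V x) ^ 2 := by
    rw [mul_sum, ← sum_sub_distrib, ← sum_add_distrib]
    apply sum_congr rfl
    intro x _
    simp only [Pi.sub_apply]
    ring
  have h2 : ∑ x, Mq q V x * Mq q V x = ∑ x, (Mq q V x) ^ 2 := by
    apply sum_congr rfl
    intro x _
    ring
  rw [h1, h, h2]
  ring

theorem dd_eq (q : ι) (V : (∀ i, α i) → ℝ) : dd q V = ∑ x, ((V - Mq q V) x) ^ 2 := by
  unfold dd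
  rw [pyth q V]
  ring

theorem dd_nonneg (q : ι) (V : (∀ i, α i) → ℝ) : 0 ≤ dd q V := by
  rw [dd_eq]
  exact sum_nonneg fun _ _ => sq_nonneg _

theorem dd_split (p q : ι) (hpq : p ≠ q) (V : (∀ i, α i) → ℝ) :
    dd p V = dd p (Mq q V) + dd p (V - Mq q V) := by
  unfold dd
  have h1 := pyth q V
  have h2 := pyth q (Mq p V)
  have h3 : Mq q (Mq p V) = Mq p (Mq q V) := (Mq_comm p q hpq V).symm
  rw [h3] at h2
  have h4 : Mq p V - Mq p (Mq q V) = Mq p (V - Mq q V) := by rw [map_sub]
  rw [h4] at h2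
  linarith

theorem dirichlet (q : ι) (V : (∀ i, α i) → ℝ) :
    1 / mm α q * ∑ x, ∑ j : α q, (V (Function.update x q j) - V x) ^ 2 = 2 * dd q V := by
  have hm := mm_pos (α := α) q
  have h1 : ∀ x : (∀ i, α i), ∑ j : α q, (V (Function.update x q j) - V x) ^ 2 =
      ∑ j : α q, (V (Function.update x q j)) ^ 2 - 2 * (mm α q * (Mq q V x * V x)) +
        mm α q * (V x) ^ 2 := by
    intro x
    have h2 : mm α q * (Mq q V x * V x) = ∑ j : α q, V (Function.update x q j) * V x := by
      rw [Mq_apply, ← sum_mul]; field_simp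
    have h3 : mm α q * (V x) ^ 2 = ∑ j : α q, (V x) ^ 2 := by
      rw [sum_const, nsmul_eq_mul, card_univ]; rfl
    rw [h2, h3, mul_sum, ← sum_sub_distrib, ← sum_add_distrib]
    apply sum_congr rfl
    intro j _
    ring
  simp_rw [h1]
  rw [sum_add_distrib, sum_sub_distrib, ← mul_sum, ← mul_sum, ← mul_sum, Mq_adj q V V]
  have h4 : ∑ x, Mq q V x * Mq q V x = ∑ x, (Mq q V x) ^ 2 := by
    apply sum_congr rfl
    intro x _
    ring
  rw [h4]
  have h5 := fub q (fun x : (∀ i, α i) => (V x) ^ 2)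
  have h6 : ∑ x : (∀ i, α i), ∑ j : α q, (V (Function.update x q j)) ^ 2 =
      mm α q * ∑ x, (V x) ^ 2 := by
    rw [h5]; field_simp
  rw [h6]
  unfold dd
  field_simp
  ring

/-- Functions that depend (among the coordinates of `l`) on coordinates of product `≤ D` only. -/
def Gen (l : List ι) (D : ℝ) (v : (∀ i, α i) → ℝ) : Prop :=
  ∃ T : Finset ι, (∀ i ∈ T, i ∈ l) ∧ ∏ i ∈ T, mm α i ≤ D ∧
    ∀ p ∈ l, p ∉ T → ∀ x (j : α p), v (Function.update x p j) = v x

/-- Functions of level `D`. -/
def Lev (l : List ι) (D : ℝ) : Submodule ℝ ((∀ i, α i) → ℝ) := Submodule.span ℝ {v | Gen l D v}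

theorem lev_M (q : ι) (l : List ι) (hq : q ∉ l) (hm : ∀ i, 1 < mm α i) (D : ℝ)
    (V : (∀ i, α i) → ℝ) (hV : V ∈ Lev (q :: l) D) : Mq q V ∈ Lev l D := by
  have h : Lev (q :: l) D ≤ (Lev (α := α) l D).comap (Mq q) := by
    apply Submodule.span_le.2
    rintro v ⟨T, hT1, hT2, hT3⟩
    apply Submodule.subset_span
    refine ⟨T.erase q, ?_, ?_, ?_⟩
    · intro i hi
      rw [mem_erase] at hi
      rcases List.mem_cons.1 (hT1 i hi.2) with h | h
      · exact absurd h hi.1
      · exact h
    · refine le_trans ?_ hT2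
      by_cases hqT : q ∈ T
      · rw [← mul_prod_erase T (fun i => mm α i) hqT]
        exact le_mul_of_one_le_left (prod_nonneg fun i _ => (mm_pos i).le) (hm q).le
      · rw [erase_eq_of_notMem hqT]
    · intro p hp hpT x j
      have hpq : p ≠ q := by rintro rfl; exact hq hp
      apply Mq_inv p q hpq
      apply hT3 p (List.mem_cons_of_mem _ hp)
      intro hpT'
      exact hpT (mem_erase.2 ⟨hpq, hpT'⟩)
  exact h hV

theorem Mq_of_inv (q : ι) (v : (∀ i, α i) → ℝ)
    (h : ∀ x (j : α q), v (Function.update x q j) = v x) : Mq q v = v := by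
  funext x
  rw [Mq_apply]
  simp only [h, sum_const, nsmul_eq_mul, card_univ]
  have hm := mm_pos (α := α) q
  have : (Fintype.card (α q) : ℝ) = mm α q := rfl
  rw [this]
  field_simp

theorem lev_Q (q : ι) (l : List ι) (hq : q ∉ l) (hm : ∀ i, 1 < mm α i) (D : ℝ)
    (V : (∀ i, α i) → ℝ) (hV : V ∈ Lev (q :: l) D) :
    V - Mq q V = 0 ∨ (mm α q ≤ D ∧ V - Mq q V ∈ Lev l (D / mm α q)) := by
  have hq0 := mm_pos (α := α) q
  set R : ((∀ i, α i) → ℝ) →ₗ[ℝ] ((∀ i, α i) → ℝ) := LinearMap.id - Mq q with hR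
  have hRV : ∀ v, R v = v - Mq q v := fun v => by rw [hR]; rfl
  have hgen : ∀ v ∈ {v : (∀ i, α i) → ℝ | Gen (q :: l) D v},
      R v = 0 ∨ (mm α q ≤ D ∧ R v ∈ Lev l (D / mm α q)) := by
    rintro v ⟨T, hT1, hT2, hT3⟩
    by_cases hqT : q ∈ T
    · right
      have h1 : mm α q * ∏ i ∈ T.erase q, mm α i ≤ D := by
        rw [mul_prod_erase T (fun i => mm α i) hqT]; exact hT2
      have h2' : ∀ T' : Finset ι, 1 ≤ ∏ i ∈ T', mm α i := by
        intro T'
        induction T' using Finset.induction_on with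
        | empty => simp
        | insert i s hi ih =>
          rw [prod_insert hi]
          have := (hm i).le
          nlinarith
      have h2 : 1 ≤ ∏ i ∈ T.erase q, mm α i := h2' _
      refine ⟨?_, ?_⟩
      · calc mm α q = mm α q * 1 := (mul_one _).symm
          _ ≤ mm α q * ∏ i ∈ T.erase q, mm α i := mul_le_mul_of_nonneg_left h2 hq0.le
          _ ≤ D := h1
      · rw [hRV]
        apply Submodule.subset_span
        refine ⟨T.erase q, ?_, ?_, ?_⟩
        · intro i hi
          rw [mem_erase] at hi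
          rcases List.mem_cons.1 (hT1 i hi.2) with h | h
          · exact absurd h hi.1
          · exact h
        · rw [le_div_iff₀ hq0]; linarith
        · intro p hp hpT x j
          have hpq : p ≠ q := by rintro rfl; exact hq hp
          have hpT' : p ∉ T := fun h => hpT (mem_erase.2 ⟨hpq, h⟩)
          have h3 := hT3 p (List.mem_cons_of_mem _ hp) hpT'
          rw [Pi.sub_apply, Pi.sub_apply, h3, Mq_inv p q hpq v h3]
    · left
      rw [hRV, Mq_of_inv q v (hT3 q (by simp) hqT), sub_self]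
  by_cases hD : mm α q ≤ D
  · right
    refine ⟨hD, ?_⟩
    have h : Lev (q :: l) D ≤ (Lev (α := α) l (D / mm α q)).comap R := by
      apply Submodule.span_le.2
      intro v hv
      rcases hgen v hv with h | h
      · change R v ∈ Lev l (D / mm α q)
        rw [h]; exact Submodule.zero_mem _
      · exact h.2
    have h2 : R V ∈ Lev l (D / mm α q) := h hV
    rwa [hRV] at h2
  · left
    have h : Lev (q :: l) D ≤ LinearMap.ker R := by
      apply Submodule.span_le.2
      intro v hv
      rcases hgen v hv with h | h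
      · exact h
      · exact absurd h.1 hD
    have h2 : R V = 0 := h hV
    rwa [hRV] at h2

theorem level_le (l : List ι) (hl : l.Nodup) (hm : ∀ i, 1 < mm α i) (D : ℝ) (hD : 1 ≤ D)
    (V : (∀ i, α i) → ℝ) (hV : V ∈ Lev l D) :
    (l.map (fun p => Real.log (mm α p) * dd p V)).sum ≤ Real.log D * ∑ x, (V x) ^ 2 := by
  induction l generalizing D V with
  | nil =>
    simp only [List.map_nil, List.sum_nil]
    exact mul_nonneg (Real.log_nonneg hD) (sum_nonneg fun _ _ => sq_nonneg _)
  | cons q l ih =>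
    have hq : q ∉ l := (List.nodup_cons.1 hl).1
    have hl' := (List.nodup_cons.1 hl).2
    have h1 := ih hl' D hD (Mq q V) (lev_M q l hq hm D V hV)
    have hq0 := mm_pos (α := α) q
    have h2 : (l.map (fun p => Real.log (mm α p) * dd p (V - Mq q V))).sum +
        Real.log (mm α q) * ∑ x, ((V - Mq q V) x) ^ 2 ≤
        Real.log D * ∑ x, ((V - Mq q V) x) ^ 2 := by
      rcases lev_Q q l hq hm D V hV with h | ⟨h3, h4⟩
      · rw [h]
        have h5 : ∀ p : ι, dd p (0 : (∀ i, α i) → ℝ) = 0 := by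
          intro p
          unfold dd
          simp
        simp [h5]
      · have h5 := ih hl' (D / mm α q) (by rw [le_div_iff₀ hq0]; linarith) (V - Mq q V) h4
        rw [Real.log_div (by linarith) hq0.ne'] at h5
        linarith
    rw [List.map_cons, List.sum_cons, pyth q V, mul_add]
    have h3 : (l.map (fun p => Real.log (mm α p) * dd p V)).sum =
        (l.map (fun p => Real.log (mm α p) * dd p (Mq q V))).sum +
        (l.map (fun p => Real.log (mm α p) * dd p (V - Mq q V))).sum := by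
      rw [← List.sum_map_add]
      congr 1
      apply List.map_congr_left
      intro p hp
      have hpq : p ≠ q := by rintro rfl; exact hq hp
      rw [dd_split p q hpq V]
      ring
    rw [h3, dd_eq]
    linarith

theorem alg_end {c P K L S0 S1 : ℝ} (hP : 0 < P)
    (h : c * (P * S0) ≤ 2 * S1 + K * (P * (2 * (L * S0)))) :
    c * S0 ≤ 2 / P * S1 + 2 * K * L * S0 := by
  have h1 : 2 / P * S1 = 2 * S1 / P := by ring
  have h2 : c * S0 - 2 * K * L * S0 ≤ 2 * S1 / P := by
    rw [le_div_iff₀ hP]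
    linarith
  rw [h1]
  linarith

/-- The main inequality on the product space. -/
theorem main_abs {κ : Type} [Fintype κ] (a : κ → ∀ i, α i) (mu : ℝ) (hmu0 : 0 ≤ mu)
    (hmu : ∀ i (j : α i), ((univ.filter (fun k => a k i = j)).card : ℝ) ≤ mu)
    (l : List ι) (hl : l.Nodup)
    (hmem : ∀ i, i ∈ l) (hm : ∀ i, 1 < mm α i) (lam : ℝ) (hlam : 0 < lam)
    (hlog : ∀ i, lam ≤ Real.log (mm α i)) (D : ℝ) (hD : 1 ≤ D)
    (V : (∀ i, α i) → ℝ) (hV : V ∈ Lev l D) :
    (Fintype.card κ : ℝ) * ∑ x, (V x) ^ 2 ≤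
      2 / (l.map (fun q => 1 - 1 / mm α q)).prod *
        ∑ x, (V x) ^ 2 * (univ.filter (fun k => ∀ i, x i ≠ a k i)).card +
      2 * (1 / lam + 2 * SS (mm α) l) * (mu * Real.log D) * ∑ x, (V x) ^ 2 := by
  set Pr : ℝ := (l.map (fun q => 1 - 1 / mm α q)).prod with hPr
  have hPr0 : 0 < Pr := by
    rw [hPr]
    apply List.prod_pos
    intro r hr
    obtain ⟨q, _, rfl⟩ := List.mem_map.1 hr
    have hq := hm q
    have : 1 / mm α q < 1 := by rw [div_lt_one (by linarith)]; exact hq
    linarith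
  set K : ℝ := 1 / lam + 2 * SS (mm α) l with hK
  have hK0 : 0 ≤ K := by
    have := SS_nonneg (m := mm α) l (fun q _ => hm q)
    positivity
  have h1 : ∀ k : κ, Pr * ∑ x, (V x) ^ 2 ≤
      2 * ∑ x, (if ∀ i, x i ≠ a k i then 1 else 0) * (V x) ^ 2 +
      K * (Pr * ∑ p, Real.log (mm α p) / mm α p *
        ∑ x, (V (Function.update x p (a k p)) - V x) ^ 2) :=
    fun k => one_point (a k) l hl hmem hm lam hlam hlog V
  have h2 := sum_le_sum fun (k : κ) (_ : k ∈ univ) => h1 k
  rw [sum_const, card_univ, nsmul_eq_mul, sum_add_distrib, ← mul_sum, ← mul_sum, ← mul_sum] at h2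
  have h3 : ∑ k : κ, ∑ x, (if ∀ i, x i ≠ a k i then (1 : ℝ) else 0) * (V x) ^ 2 =
      ∑ x, (V x) ^ 2 * (univ.filter (fun k => ∀ i, x i ≠ a k i)).card := by
    rw [sum_comm]
    apply sum_congr rfl
    intro x _
    rw [← sum_mul, mul_comm, card_filter]
    push_cast
    rfl
  rw [h3] at h2
  have h4 : ∑ k : κ, ∑ p, Real.log (mm α p) / mm α p *
      ∑ x, (V (Function.update x p (a k p)) - V x) ^ 2 ≤
      2 * (mu * Real.log D * ∑ x, (V x) ^ 2) := by
    rw [sum_comm]
    have h5 : ∀ p : ι, ∑ k : κ, Real.log (mm α p) / mm α p *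
        ∑ x, (V (Function.update x p (a k p)) - V x) ^ 2 ≤
          mu * (Real.log (mm α p) * (2 * dd p V)) := by
      intro p
      rw [← mul_sum, ← dirichlet, sum_comm]
      have hlp : 0 ≤ Real.log (mm α p) := by linarith [hlog p]
      have h6 : ∑ x : (∀ i, α i), ∑ k : κ, (V (Function.update x p (a k p)) - V x) ^ 2 ≤
          mu * ∑ x : (∀ i, α i), ∑ j : α p, (V (Function.update x p j) - V x) ^ 2 := by
        rw [mul_sum]
        apply sum_le_sum
        intro x _
        have h7 : ∑ k : κ, (V (Function.update x p (a k p)) - V x) ^ 2 =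
            ∑ j : α p, ∑ k ∈ univ.filter (fun k => a k p = j),
              (V (Function.update x p (a k p)) - V x) ^ 2 :=
          (sum_fiberwise univ (fun k => a k p) _).symm
        rw [h7, mul_sum]
        apply sum_le_sum
        intro j _
        have h8 : ∑ k ∈ univ.filter (fun k => a k p = j),
            (V (Function.update x p (a k p)) - V x) ^ 2 =
            ((univ.filter (fun k => a k p = j)).card : ℝ) *
              (V (Function.update x p j) - V x) ^ 2 := by
          rw [← nsmul_eq_mul, ← sum_const]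
          apply sum_congr rfl
          intro k hk
          rw [(mem_filter.1 hk).2]
        rw [h8]
        exact mul_le_mul_of_nonneg_right (hmu p j) (sq_nonneg _)
      have h8 := mul_le_mul_of_nonneg_left h6
        (by have := mm_pos (α := α) p; positivity : 0 ≤ Real.log (mm α p) / mm α p)
      refine h8.trans (le_of_eq ?_)
      ring
    refine (sum_le_sum fun p _ => h5 p).trans ?_
    have h6 := level_le l hl hm D hD V hV
    have htf : l.toFinset = univ := by
      ext i; simp [hmem i]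
    rw [← List.sum_toFinset _ hl, htf] at h6
    have h7 : ∑ p, mu * (Real.log (mm α p) * (2 * dd p V)) =
        2 * (mu * ∑ p, Real.log (mm α p) * dd p V) := by
      rw [mul_sum, mul_sum]
      apply sum_congr rfl
      intro p _
      ring
    rw [h7, mul_assoc mu]
    have h8 := mul_le_mul_of_nonneg_left h6 hmu0
    linarith
  have h5 : (Fintype.card κ : ℝ) * (Pr * ∑ x, (V x) ^ 2) ≤
      2 * ∑ x, (V x) ^ 2 * (univ.filter (fun k => ∀ i, x i ≠ a k i)).card +
      K * (Pr * (2 * (mu * Real.log D * ∑ x, (V x) ^ 2))) := by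
    refine h2.trans ?_
    apply add_le_add le_rfl
    apply mul_le_mul_of_nonneg_left _ hK0
    exact mul_le_mul_of_nonneg_left h4 hPr0.le
  exact alg_end hPr0 h5

end Lev

end Pool.Agent.H76.BR
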