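import Mathlib
import Pool.Agent.H76.BR.Abs
import Pool.Graph.R_seed8.H318R2.Cr.Prod

/-!
The constant `SS` for lists of primes in `[log X, X]`.
-/

set_option autoImplicit false

namespace Pool.Agent.H76.BR

open Finset Pool.Agent.H318R2.Cr

open scoped Classical

theorem inv_ge_one {r : ℕ} (hr : r.Prime) : 1 ≤ (1 - 1 / (r : ℝ))⁻¹ := by
  have h1 := one_sub_inv_pos hr
  have h2 : 0 ≤ 1 / (r : ℝ) := by positivity
  rw [one_le_inv₀ h1]; linarith

/-- The product over the primes of `[a, p]`. -/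
noncomputable def PI (a p : ℕ) : ℝ := ∏ r ∈ (Icc a p).filter Nat.Prime, (1 - 1 / (r : ℝ))⁻¹

theorem PI_anti (a b p : ℕ) (hab : a ≤ b) : PI b p ≤ PI a p := by
  unfold PI
  have h : (Icc b p).filter Nat.Prime ⊆ (Icc a p).filter Nat.Prime := by
    intro r hr
    rw [mem_filter, mem_Icc] at hr ⊢
    exact ⟨⟨hab.trans hr.1.1, hr.1.2⟩, hr.2⟩
  rw [← prod_sdiff h]
  have h1 : 1 ≤ ∏ r ∈ (Icc a p).filter Nat.Prime \ (Icc b p).filter Nat.Prime,
      (1 - 1 / (r : ℝ))⁻¹ := by
    have h2 : ∀ T : Finset ℕ, (∀ r ∈ T, r.Prime) → 1 ≤ ∏ r ∈ T, (1 - 1 / (r : ℝ))⁻¹ := by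
      intro T
      induction T using Finset.induction_on with
      | empty => simp
      | insert i s hi ih =>
        intro hT
        rw [prod_insert hi]
        have h3 := inv_ge_one (hT i (mem_insert_self i s))
        have h4 := ih fun r hr => hT r (mem_insert_of_mem hr)
        nlinarith
    apply h2
    intro r hr
    exact (mem_filter.1 (mem_sdiff.1 hr).1).2
  apply le_mul_of_one_le_left _ h1
  apply prod_nonneg
  intro r hr
  have := inv_ge_one (mem_filter.1 hr).2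
  linarith

theorem PI_cons (q p : ℕ) (hq : q.Prime) (hqp : q ≤ p) :
    (1 - 1 / (q : ℝ))⁻¹ * PI (q + 1) p = PI q p := by
  unfold PI
  have h : (Icc q p).filter Nat.Prime = insert q ((Icc (q + 1) p).filter Nat.Prime) := by
    ext r
    rw [mem_insert, mem_filter, mem_filter, mem_Icc, mem_Icc]
    constructor
    · rintro ⟨⟨h1, h2⟩, h3⟩
      by_cases h : r = q
      · exact Or.inl h
      · exact Or.inr ⟨⟨by omega, h2⟩, h3⟩
    · rintro (rfl | ⟨⟨h1, h2⟩, h3⟩)
      · exact ⟨⟨le_rfl, hqp⟩, hq⟩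
      · exact ⟨⟨by omega, h2⟩, h3⟩
  rw [h, prod_insert]
  rw [mem_filter, mem_Icc]
  omega

theorem PI_self (q : ℕ) (hq : q.Prime) : PI q q = (1 - 1 / (q : ℝ))⁻¹ := by
  rw [← PI_cons q q hq le_rfl]
  have : PI (q + 1) q = 1 := by
    unfold PI
    rw [Icc_eq_empty (by omega)]
    simp
  rw [this, mul_one]

theorem SS_sorted (l : List ℕ) (a : ℕ) (hl : l.Pairwise (· < ·))
    (hp : ∀ p ∈ l, p.Prime ∧ a ≤ p) :
    SS (fun n : ℕ => (n : ℝ)) l ≤ (l.map (fun p : ℕ => 1 / ((p : ℝ) * Real.log p) * PI a p)).sum := by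
  induction l generalizing a with
  | nil => simp [SS]
  | cons q l ih =>
    obtain ⟨hql, hl'⟩ := List.pairwise_cons.1 hl
    have hq := (hp q (by simp)).1
    have haq := (hp q (by simp)).2
    have h1 := ih (q + 1) hl' (fun p hpl => ⟨(hp p (by simp [hpl])).1, hql p hpl⟩)
    have hq1 := one_sub_inv_pos hq
    simp only [SS]
    rw [List.map_cons, List.sum_cons, add_div, div_eq_mul_inv, div_eq_mul_inv (1 / _)]
    have h2 : SS (fun n : ℕ => (n : ℝ)) l * (1 - 1 / (q : ℝ))⁻¹ ≤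
        (l.map (fun p : ℕ => 1 / ((p : ℝ) * Real.log p) * PI a p)).sum := by
      refine (mul_le_mul_of_nonneg_right h1 (by positivity)).trans ?_
      rw [← List.sum_map_mul_right]
      apply List.sum_le_sum
      intro p hpl
      have hpp := (hp p (by simp [hpl])).1
      have hlog : 0 ≤ Real.log (p : ℝ) := Real.log_natCast_nonneg p
      have h3 : PI (q + 1) p * (1 - 1 / (q : ℝ))⁻¹ ≤ PI a p := by
        rw [mul_comm, PI_cons q p hq (hql p hpl).le]
        exact PI_anti a q p haq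
      calc 1 / ((p : ℝ) * Real.log p) * PI (q + 1) p * (1 - 1 / (q : ℝ))⁻¹
          = 1 / ((p : ℝ) * Real.log p) * (PI (q + 1) p * (1 - 1 / (q : ℝ))⁻¹) := by ring
        _ ≤ _ := mul_le_mul_of_nonneg_left h3 (by positivity)
    have h4 : 1 / ((q : ℝ) * Real.log q) * (1 - 1 / (q : ℝ))⁻¹ ≤
        1 / ((q : ℝ) * Real.log q) * PI a q := by
      rw [← PI_self q hq]
      have hlog : 0 ≤ Real.log (q : ℝ) := Real.log_natCast_nonneg q
      exact mul_le_mul_of_nonneg_left (PI_anti a q q haq) (by positivity)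
    linarith

theorem SS_bound : ∃ C : ℝ, 0 < C ∧ ∃ X₀ : ℝ, ∀ X : ℝ, X₀ ≤ X →
    ∀ l : List ℕ, l.Pairwise (· < ·) → (∀ p ∈ l, p.Prime ∧ Real.log X ≤ p ∧ (p : ℝ) ≤ X) →
      SS (fun n : ℕ => (n : ℝ)) l ≤ C ∧
      1 / C ≤ (l.map (fun p : ℕ => 1 - 1 / (p : ℝ))).prod * Real.log X ∧
      1 ≤ Real.log (Real.log X) ∧ 0 < Real.log X := by
  obtain ⟨c₁, c₂, hc₁, hc₁₂, hV⟩ := cz_bounds
  have hc₂ : 0 < c₂ := hc₁.trans_le hc₁₂
  obtain ⟨C, hC⟩ : ∃ C : ℝ, C = c₂ / c₁ * (2 * (1 + |Real.log c₁|)) + 1 / c₁ := ⟨_, rfl⟩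
  have hC0 : 0 < C := by rw [hC]; positivity
  refine ⟨C, hC0, Real.exp (Real.exp 4), fun X hX l hl hp => ?_⟩
  have hX0 : 0 < X := (Real.exp_pos _).trans_le hX
  set L := Real.log X with hL
  have hLL : Real.exp 4 ≤ L := by
    rw [hL, ← Real.log_exp (Real.exp 4)]
    exact Real.log_le_log (Real.exp_pos _) hX
  have hL0 : 0 < L := (Real.exp_pos _).trans_le hLL
  set t := Real.log L with ht
  have ht4 : 4 ≤ t := by
    rw [ht, ← Real.log_exp 4]
    exact Real.log_le_log (Real.exp_pos _) hLL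
  have hL5 : 5 ≤ L := by
    have := Real.add_one_le_exp (4 : ℝ)
    linarith
  have hXL : X = Real.exp L := (Real.exp_log hX0).symm
  have hX6 : 6 ≤ X := by
    have := Real.add_one_le_exp L
    rw [hXL]; linarith
  -- the smallest possible prime
  set a : ℕ := ⌈L⌉₊ with ha
  have ha1 : L ≤ a := Nat.le_ceil L
  have ha5 : 5 ≤ a := by
    have : (5 : ℝ) ≤ a := by linarith
    exact_mod_cast this
  have hap : ∀ p ∈ l, p.Prime ∧ a ≤ p := fun p hpl => ⟨(hp p hpl).1, Nat.ceil_le.2 (hp p hpl).2.1⟩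
  have hloga : t / 2 ≤ Real.log ((a - 1 : ℕ) : ℝ) := by
    have h1 : L - 1 ≤ ((a - 1 : ℕ) : ℝ) := by
      rw [Nat.cast_sub (by omega)]; push_cast; linarith
    have h2 : L ≤ (L - 1) ^ 2 := by nlinarith
    have h3 := Real.log_le_log hL0 h2
    rw [Real.log_pow] at h3
    push_cast at h3
    have h4 := Real.log_le_log (by linarith) h1
    linarith
  have hloga0 : 0 < Real.log ((a - 1 : ℕ) : ℝ) := by linarith
  have hPI : ∀ p : ℕ, a ≤ p → p.Prime → PI a p ≤ c₂ / c₁ * (Real.log p / Real.log ((a - 1 : ℕ) : ℝ)) := by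
    intro p hap hpp
    have e1 : Pz p = Pz (a - 1) ∪ (Icc a p).filter Nat.Prime := by
      ext r
      rw [mem_union, mem_Pz, mem_Pz, mem_filter, mem_Icc]
      constructor
      · rintro ⟨h1, h2⟩
        by_cases h : r ≤ a - 1
        · exact Or.inl ⟨h1, h⟩
        · exact Or.inr ⟨⟨by omega, h2⟩, h1⟩
      · rintro (⟨h1, h2⟩ | ⟨⟨h1, h2⟩, h3⟩)
        · exact ⟨h1, by omega⟩
        · exact ⟨h3, h2⟩
    have e2 : Disjoint (Pz (a - 1)) ((Icc a p).filter Nat.Prime) := by
      rw [Finset.disjoint_left]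
      intro r h1 h2
      have h3 := (mem_Pz.1 h1).2
      rw [mem_filter, mem_Icc] at h2
      omega
    have e3 : V p * PI a p = V (a - 1) := by
      unfold V PI
      rw [e1, prod_union e2, mul_assoc, ← prod_mul_distrib]
      rw [prod_eq_one (s := (Icc a p).filter Nat.Prime), mul_one]
      intro r hr
      have := one_sub_inv_pos (mem_filter.1 hr).2
      field_simp
    have h1 := (hV p (by omega)).1
    have h2 := (hV (a - 1) (by omega)).2
    have hVp := V_pos p
    have hlp : 0 < Real.log p := Real.log_pos (by exact_mod_cast (by omega : 1 < p))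
    have hPI0 : 0 ≤ PI a p := by
      unfold PI
      apply prod_nonneg
      intro r hr
      have := inv_ge_one (mem_filter.1 hr).2
      linarith
    rw [← mul_div_assoc, div_mul_eq_mul_div, div_div, le_div_iff₀ (by positivity)]
    calc PI a p * (c₁ * Real.log ((a - 1 : ℕ) : ℝ))
        ≤ PI a p * ((V p * Real.log p) * Real.log ((a - 1 : ℕ) : ℝ)) := by gcongr
      _ = (V p * PI a p) * Real.log ((a - 1 : ℕ) : ℝ) * Real.log p := by ring
      _ = V (a - 1) * Real.log ((a - 1 : ℕ) : ℝ) * Real.log p := by rw [e3]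
      _ ≤ c₂ * Real.log p := by gcongr
  -- sum of 1/p
  set w : ℕ := ⌊X⌋₊ with hw
  have hwX : (w : ℝ) ≤ X := Nat.floor_le hX0.le
  have hw2 : 2 ≤ w := by
    apply Nat.le_floor; push_cast; linarith
  have hlw : 0 < Real.log w := Real.log_pos (by exact_mod_cast (by omega : 1 < w))
  have hlwL : Real.log w ≤ L := Real.log_le_log (by exact_mod_cast (by omega : 0 < w)) hwX
  have hVw := (hV w hw2).1
  have hVw0 := V_pos w
  have hVL : c₁ ≤ V w * L := hVw.trans (mul_le_mul_of_nonneg_left hlwL hVw0.le)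
  have hnd : l.Nodup := hl.imp (fun h => Nat.ne_of_lt h)
  have hsub : l.toFinset ⊆ Pz w := by
    intro p hpl
    have h1 := hp p (List.mem_toFinset.1 hpl)
    exact mem_Pz.2 ⟨h1.1, Nat.le_floor h1.2.2⟩
  have hsum : (l.map (fun p : ℕ => 1 / (p : ℝ))).sum ≤ t + |Real.log c₁| := by
    rw [← List.sum_toFinset _ hnd]
    have h1 : ∑ p ∈ l.toFinset, 1 / (p : ℝ) ≤ ∑ p ∈ Pz w, 1 / (p : ℝ) :=
      sum_le_sum_of_subset_of_nonneg hsub fun i _ _ => by positivity
    have h2 : V w ≤ Real.exp (-∑ p ∈ Pz w, 1 / (p : ℝ)) := by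
      rw [← sum_neg_distrib, Real.exp_sum]
      unfold V
      apply prod_le_prod
      · intro p hp'; exact (one_sub_inv_pos (mem_Pz.1 hp').1).le
      · intro p _
        have := Real.add_one_le_exp (-(1 / (p : ℝ)))
        linarith
    have h3 : c₁ ≤ Real.exp (-∑ p ∈ Pz w, 1 / (p : ℝ)) * L :=
      hVL.trans (mul_le_mul_of_nonneg_right h2 hL0.le)
    have h4 := Real.log_le_log hc₁ h3
    rw [Real.log_mul (Real.exp_pos _).ne' hL0.ne', Real.log_exp] at h4
    have h5 := neg_abs_le (Real.log c₁)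
    linarith
  refine ⟨?_, ?_, by linarith, hL0⟩
  · refine (SS_sorted l a hl hap).trans ?_
    have h1 : (l.map (fun p : ℕ => 1 / ((p : ℝ) * Real.log p) * PI a p)).sum ≤
        (l.map (fun p : ℕ => c₂ / (c₁ * Real.log ((a - 1 : ℕ) : ℝ)) * (1 / (p : ℝ)))).sum := by
      apply List.sum_le_sum
      intro p hpl
      have hpp := (hap p hpl)
      have hlp : 0 < Real.log p := Real.log_pos (by exact_mod_cast hpp.1.one_lt)
      have hp0 : (0 : ℝ) < p := by exact_mod_cast hpp.1.pos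
      calc 1 / ((p : ℝ) * Real.log p) * PI a p
          ≤ 1 / ((p : ℝ) * Real.log p) * (c₂ / c₁ * (Real.log p / Real.log ((a - 1 : ℕ) : ℝ))) :=
            mul_le_mul_of_nonneg_left (hPI p hpp.2 hpp.1) (by positivity)
        _ = _ := by field_simp
    refine h1.trans ?_
    rw [List.sum_map_mul_left]
    have h2 : c₂ / (c₁ * Real.log ((a - 1 : ℕ) : ℝ)) ≤ c₂ / (c₁ * (t / 2)) := by
      apply div_le_div_of_nonneg_left hc₂.le (by positivity)
      exact mul_le_mul_of_nonneg_left hloga hc₁.le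
    have hs0 : 0 ≤ (l.map (fun p : ℕ => 1 / (p : ℝ))).sum := by
      apply List.sum_nonneg
      intro r hr
      obtain ⟨p, _, rfl⟩ := List.mem_map.1 hr
      positivity
    calc c₂ / (c₁ * Real.log ((a - 1 : ℕ) : ℝ)) * (l.map (fun p : ℕ => 1 / (p : ℝ))).sum
        ≤ c₂ / (c₁ * (t / 2)) * (t + |Real.log c₁|) :=
          mul_le_mul h2 hsum hs0 (by positivity)
      _ = c₂ / c₁ * (2 * (1 + |Real.log c₁| / t)) := by field_simp
      _ ≤ c₂ / c₁ * (2 * (1 + |Real.log c₁|)) := by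
          have : |Real.log c₁| / t ≤ |Real.log c₁| := div_le_self (abs_nonneg _) (by linarith)
          gcongr
      _ ≤ C := by
          rw [hC]
          have : 0 < 1 / c₁ := by positivity
          linarith
  · have h1 : V w ≤ (l.map (fun p : ℕ => 1 - 1 / (p : ℝ))).prod := by
      rw [← List.prod_toFinset _ hnd]
      unfold V
      rw [← prod_sdiff hsub]
      have h2 : ∏ p ∈ Pz w \ l.toFinset, (1 - 1 / (p : ℝ)) ≤ 1 := by
        apply prod_le_one
        · intro p hp'; exact (one_sub_inv_pos (mem_Pz.1 (mem_sdiff.1 hp').1).1).le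
        · intro p _
          have : (0 : ℝ) ≤ 1 / p := by positivity
          linarith
      apply mul_le_of_le_one_left _ h2
      apply prod_nonneg
      intro p hp'
      exact (one_sub_inv_pos (hp p (List.mem_toFinset.1 hp')).1).le
    have h2 : c₁ ≤ (l.map (fun p : ℕ => 1 - 1 / (p : ℝ))).prod * L :=
      hVL.trans (mul_le_mul_of_nonneg_right h1 hL0.le)
    refine le_trans ?_ h2
    rw [div_le_iff₀ hC0, hC]
    have h3 : c₁ * (1 / c₁) = 1 := by field_simp
    have h4 : 0 ≤ c₁ * (c₂ / c₁ * (2 * (1 + |Real.log c₁|))) := by positivity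
    rw [mul_add]
    linarith

end Pool.Agent.H76.BR
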