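import Mathlib
import Pool.Agent.H76.BR.Lev
import Pool.Agent.H76.BR.Num

/-!
The inequality for functions of `n` modulo a product of primes.
-/

set_option autoImplicit false
set_option maxHeartbeats 4000000

namespace Pool.Agent.H76.BR

open Finset

section Crt

variable (P : Finset ℕ) (hP : ∀ p ∈ P, p.Prime)

theorem SS_map (l : List P) [∀ p : P, NeZero (p : ℕ)] :
    SS (mm (fun p : P => ZMod (p : ℕ))) l = SS (fun n : ℕ => (n : ℝ)) (l.map Subtype.val) := by
  induction l with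
  | nil => rfl
  | cons q l ih =>
    have h : mm (fun p : P => ZMod (p : ℕ)) q = ((q : ℕ) : ℝ) := by
      unfold mm
      rw [ZMod.card]
    rw [List.map_cons]
    simp only [SS]
    rw [ih, h]

theorem crt_exists (hP : ∀ p ∈ P, p.Prime) (x : ∀ p : P, ZMod (p : ℕ)) :
    ∃! n : ℕ, n < ∏ p ∈ P, p ∧ ∀ p : P, (n : ZMod (p : ℕ)) = x p := by
  have hcop : Pairwise (Function.onFun Nat.Coprime (fun p : P => (p : ℕ))) := by
    intro p q hpq
    exact (Nat.coprime_primes (hP p p.2) (hP q q.2)).2 fun h => hpq (Subtype.ext h)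
  set e := ZMod.prodEquivPi (fun p : P => (p : ℕ)) hcop with he
  have hN : ∏ p : P, (p : ℕ) = ∏ p ∈ P, p := Finset.prod_coe_sort P (fun p => p)
  have hNpos : 0 < ∏ p ∈ P, p := prod_pos fun p hp => (hP p hp).pos
  have : NeZero (∏ p : P, (p : ℕ)) := ⟨by rw [hN]; omega⟩
  have hcast : ∀ n : ℕ, ∀ p : P, e (n : ZMod (∏ p : P, (p : ℕ))) p = (n : ZMod (p : ℕ)) := by
    intro n p
    rw [map_natCast]
    rfl
  refine ⟨(e.symm x).val, ⟨?_, ?_⟩, ?_⟩
  · rw [← hN]; exact ZMod.val_lt _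
  · intro p
    have h1 := hcast (e.symm x).val p
    rw [ZMod.natCast_zmod_val, e.apply_symm_apply] at h1
    exact h1.symm
  · rintro n ⟨h1, h2⟩
    have h3 : e (n : ZMod (∏ p : P, (p : ℕ))) = x := by
      funext p
      rw [hcast, h2]
    have h4 : (n : ZMod (∏ p : P, (p : ℕ))) = e.symm x := by
      rw [← h3, e.symm_apply_apply]
    rw [← h4, ZMod.val_natCast, Nat.mod_eq_of_lt]
    rw [hN]; exact h1

end Crt

/-- The number of `h ∈ H` for which `n + h` is not divisible by any prime of `P`. -/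
def surv (P H : Finset ℕ) (n : ℕ) : ℕ := (H.filter (fun h => ∀ p ∈ P, ¬ p ∣ n + h)).card

theorem main_one : ∃ C : ℝ, 0 < C ∧ ∃ X₀ : ℝ, ∀ X : ℝ, X₀ ≤ X → 0 < Real.log X ∧
    ∀ (P H : Finset ℕ) (m : ℕ),
    (∀ p ∈ P, p.Prime ∧ Real.log X ≤ p ∧ (p : ℝ) ≤ X) →
    (∀ p ∈ P, ∀ a : ℕ, (H.filter (fun h => h ≡ a [MOD p])).card ≤ m) →
    ∀ D : ℝ, 1 ≤ D → ∀ v : ℕ → ℕ → ℝ, (∀ d n, v d (n + d) = v d n) →
    (H.card : ℝ) * ∑ n ∈ range (∏ p ∈ P, p),
        (∑ d ∈ (∏ p ∈ P, p).divisors.filter (fun d : ℕ => (d : ℝ) ≤ D), v d n) ^ 2 ≤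
      C * (Real.log X * ∑ n ∈ range (∏ p ∈ P, p),
          (∑ d ∈ (∏ p ∈ P, p).divisors.filter (fun d : ℕ => (d : ℝ) ≤ D), v d n) ^ 2 *
            (surv P H n : ℝ) +
        m * Real.log D * ∑ n ∈ range (∏ p ∈ P, p),
          (∑ d ∈ (∏ p ∈ P, p).divisors.filter (fun d : ℕ => (d : ℝ) ≤ D), v d n) ^ 2) := by
  obtain ⟨C, hC, X₀, hX₀⟩ := SS_bound
  refine ⟨2 * C + 2 * (1 + 2 * C), by positivity, X₀, fun X hX => ?_⟩
  have hLX0 : 0 < Real.log X := (hX₀ X hX [] List.Pairwise.nil (by simp)).2.2.2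
  refine ⟨hLX0, fun P H m hP hH D hD v hv => ?_⟩
  have hPp : ∀ p ∈ P, p.Prime := fun p hp => (hP p hp).1
  have : ∀ p : P, NeZero (p : ℕ) := fun p => ⟨(hPp p p.2).ne_zero⟩
  set N : ℕ := ∏ p ∈ P, p with hN
  have hN0 : 0 < N := prod_pos fun p hp => (hPp p hp).pos
  set V : ℕ → ℝ := fun n => ∑ d ∈ N.divisors.filter (fun d : ℕ => (d : ℝ) ≤ D), v d n with hV
  -- the chinese remainder theorem
  choose nn hnn1 hnn2 using fun x => crt_exists P hPp x
  simp only at hnn1 hnn2
  have hbij : ∀ g : ℕ → ℝ, ∑ n ∈ range N, g n = ∑ x : (∀ p : P, ZMod (p : ℕ)), g (nn x) := by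
    intro g
    symm
    apply sum_bij (fun x _ => nn x)
    · intro x _
      exact mem_range.2 (hnn1 x).1
    · intro x _ y _ hxy
      funext p
      rw [← (hnn1 x).2 p, ← (hnn1 y).2 p, hxy]
    · intro n hn
      refine ⟨fun p => (n : ZMod (p : ℕ)), mem_univ _, ?_⟩
      exact (hnn2 _ n ⟨mem_range.1 hn, fun p => rfl⟩).symm
    · intro x _
      rfl
  -- the list of primes
  set l : List P := (univ : Finset P).sort (· ≤ ·) with hl
  have hlnd : l.Nodup := Finset.sort_nodup _ _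
  have hlmem : ∀ p : P, p ∈ l := fun p => (Finset.mem_sort _).2 (mem_univ p)
  have hlsort : (l.map Subtype.val).Pairwise (· < ·) := by
    rw [List.pairwise_map]
    exact (Finset.sortedLT_sort _).pairwise
  have hlX : ∀ p ∈ l.map Subtype.val, p.Prime ∧ Real.log X ≤ p ∧ (p : ℝ) ≤ X := by
    intro p hp
    obtain ⟨q, _, rfl⟩ := List.mem_map.1 hp
    exact hP q q.2
  obtain ⟨hS, hprod, hll, hLX⟩ := hX₀ X hX (l.map Subtype.val) hlsort hlX
  set α : P → Type := fun p => ZMod (p : ℕ) with hα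
  have hmm : ∀ p : P, mm α p = ((p : ℕ) : ℝ) := by
    intro p; unfold mm; rw [ZMod.card]
  have hm1 : ∀ p : P, 1 < mm α p := by
    intro p; rw [hmm]; exact_mod_cast (hPp p p.2).one_lt
  have hSS : SS (mm α) l ≤ C := by rw [SS_map]; exact hS
  have hSS0 : 0 ≤ SS (mm α) l := SS_nonneg l fun q _ => hm1 q
  have hlogm : ∀ p : P, Real.log (Real.log X) ≤ Real.log (mm α p) := by
    intro p
    rw [hmm]
    exact Real.log_le_log hLX (hP p p.2).2.1
  have hmu : ∀ (p : P) (j : α p), ((univ.filter (fun k : H =>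
      (fun (k : H) (p : P) => (-((k : ℕ) : ZMod (p : ℕ)) : α p)) k p = j)).card : ℝ) ≤ m := by
    intro p j
    have h1 := hH p p.2 (-j : ZMod (p : ℕ)).val
    have h2 : (univ.filter (fun k : H =>
      (fun (k : H) (p : P) => (-((k : ℕ) : ZMod (p : ℕ)) : α p)) k p = j)).card =
        (H.filter (fun h => h ≡ (-j : ZMod (p : ℕ)).val [MOD p])).card := by
      rw [card_filter, card_filter,
        ← Finset.sum_coe_sort H (fun h => if h ≡ (-j : ZMod (p : ℕ)).val [MOD p] then 1 else 0)]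
      apply sum_congr rfl
      intro k _
      congr 1
      apply propext
      rw [← ZMod.natCast_eq_natCast_iff, ZMod.natCast_zmod_val]
      constructor
      · intro h
        have h3 : (-((k : ℕ) : ZMod (p : ℕ))) = j := h
        rw [← h3, neg_neg]
      · intro h
        have h3 : (-((k : ℕ) : ZMod (p : ℕ))) = j := by rw [h, neg_neg]
        exact h3
    rw [h2]
    exact_mod_cast h1
  have hLev : (fun x => V (nn x)) ∈ Lev (α := α) l D := by
    have e : (fun x => V (nn x)) = ∑ d ∈ N.divisors.filter (fun d : ℕ => (d : ℝ) ≤ D),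
        fun x => v d (nn x) := by
      funext x
      rw [Finset.sum_apply]
    rw [e]
    apply Submodule.sum_mem
    intro d hd
    rw [mem_filter, Nat.mem_divisors] at hd
    obtain ⟨⟨hdN, -⟩, hdD⟩ := hd
    have hd0 : 0 < d := Nat.pos_of_dvd_of_pos hdN hN0
    -- the primes dividing `d`
    have hdT : ∏ p ∈ P.filter (· ∣ d), p = d := by
      apply Nat.dvd_antisymm
      · apply Finset.prod_primes_dvd
        · intro p hp
          exact (hPp p (mem_filter.1 hp).1).prime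
        · intro p hp
          exact (mem_filter.1 hp).2
      · have h1 : N = (∏ p ∈ P.filter (· ∣ d), p) * ∏ p ∈ P.filter (fun p => ¬ p ∣ d), p :=
          (prod_filter_mul_prod_filter_not P (· ∣ d) _).symm
        have h2 : Nat.Coprime d (∏ p ∈ P.filter (fun p => ¬ p ∣ d), p) := by
          apply Nat.Coprime.prod_right
          intro p hp
          rw [mem_filter] at hp
          exact ((hPp p hp.1).coprime_iff_not_dvd.2 hp.2).symm
        rw [h1] at hdN
        exact h2.dvd_of_dvd_mul_right hdN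
    apply Submodule.subset_span
    refine ⟨univ.filter (fun p : P => (p : ℕ) ∣ d), fun i _ => hlmem i, ?_, ?_⟩
    · have h1 : ∏ i ∈ univ.filter (fun p : P => (p : ℕ) ∣ d), mm α i = (d : ℝ) := by
        have h2 : ∏ i ∈ univ.filter (fun p : P => (p : ℕ) ∣ d), mm α i =
            ((∏ p ∈ P.filter (· ∣ d), p : ℕ) : ℝ) := by
          push_cast
          rw [prod_filter, prod_filter]
          rw [← Finset.prod_coe_sort P (fun p => if p ∣ d then (p : ℝ) else 1)]
          apply prod_congr rfl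
          intro p _
          rw [hmm]
        rw [h2, hdT]
      rw [h1]
      exact hdD
    · intro p _ hpT x j
      have hpd : ¬ (p : ℕ) ∣ d := by
        intro h
        exact hpT (mem_filter.2 ⟨mem_univ _, h⟩)
      have hmod : nn (Function.update x p j) ≡ nn x [MOD d] := by
        rw [← hdT]
        rw [Nat.modEq_iff_dvd]
        have h1 : ∀ r ∈ P.filter (· ∣ d), (r : ℤ) ∣ (nn x : ℤ) - nn (Function.update x p j) := by
          intro r hr
          rw [mem_filter] at hr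
          rw [← Nat.modEq_iff_dvd, ← ZMod.natCast_eq_natCast_iff]
          have h2 := (hnn1 (Function.update x p j)).2 ⟨r, hr.1⟩
          have h3 := (hnn1 x).2 ⟨r, hr.1⟩
          have hrp : (⟨r, hr.1⟩ : P) ≠ p := by
            rintro rfl
            exact hpd hr.2
          rw [Function.update_of_ne hrp] at h2
          exact h2.trans h3.symm
        push_cast
        apply Finset.prod_dvd_of_coprime
        · intro r hr s hs hrs
          rw [mem_coe, mem_filter] at hr hs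
          exact Nat.isCoprime_iff_coprime.2 ((Nat.coprime_primes (hPp r hr.1) (hPp s hs.1)).2 hrs)
        · exact h1
      have hper : Function.Periodic (v d) d := fun n => hv d n
      change v d (nn (Function.update x p j)) = v d (nn x)
      rw [← hper.map_mod_nat (nn (Function.update x p j)), ← hper.map_mod_nat (nn x), hmod]
  have hsurv : ∀ x : (∀ p : P, ZMod (p : ℕ)),
      (univ.filter (fun k : H => ∀ p : P, x p ≠
        (fun (k : H) (p : P) => (-((k : ℕ) : ZMod (p : ℕ)) : α p)) k p)).card =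
      surv P H (nn x) := by
    intro x
    unfold surv
    rw [card_filter, card_filter,
      ← Finset.sum_coe_sort H (fun h => if ∀ p ∈ P, ¬ p ∣ nn x + h then 1 else 0)]
    apply sum_congr rfl
    intro k _
    congr 1
    apply propext
    constructor
    · intro h p hp hd
      apply h ⟨p, hp⟩
      have h1 := (hnn1 x).2 ⟨p, hp⟩
      rw [← h1]
      rw [eq_neg_iff_add_eq_zero, ← Nat.cast_add]
      exact (ZMod.natCast_eq_zero_iff _ _).2 hd
    · intro h p hx
      apply h p p.2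
      have h1 := (hnn1 x).2 p
      rw [← h1, eq_neg_iff_add_eq_zero, ← Nat.cast_add] at hx
      exact (ZMod.natCast_eq_zero_iff _ _).1 hx
  have hmain := main_abs (α := α) (κ := H)
    (fun (k : H) (p : P) => (-((k : ℕ) : ZMod (p : ℕ)) : α p)) (m : ℝ) (Nat.cast_nonneg m) hmu
    l hlnd hlmem hm1
    (Real.log (Real.log X)) (by linarith) hlogm D hD (fun x => V (nn x)) hLev
  simp only [hsurv] at hmain
  rw [Fintype.card_coe, ← hbij (fun n => (V n) ^ 2),
    ← hbij (fun n => (V n) ^ 2 * (surv P H n : ℝ))] at hmain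
  have hS0 : 0 ≤ ∑ n ∈ range N, (V n) ^ 2 := sum_nonneg fun _ _ => sq_nonneg _
  have hS1 : 0 ≤ ∑ n ∈ range N, (V n) ^ 2 * (surv P H n : ℝ) :=
    sum_nonneg fun _ _ => by positivity
  have hlD : 0 ≤ Real.log D := Real.log_nonneg hD
  set S0 := ∑ n ∈ range N, (V n) ^ 2 with hS0d
  set S1 := ∑ n ∈ range N, (V n) ^ 2 * (surv P H n : ℝ) with hS1d
  have hpr : (l.map (fun q => 1 - 1 / mm α q)).prod =
      ((l.map Subtype.val).map (fun p : ℕ => 1 - 1 / (p : ℝ))).prod := by
    rw [List.map_map]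
    congr 1
    apply List.map_congr_left
    intro q _
    simp [hmm]
  have hprod' : 1 / C ≤ (l.map (fun q => 1 - 1 / mm α q)).prod * Real.log X := by
    rw [hpr]; exact hprod
  have hpr0 : 0 < (l.map (fun q => 1 - 1 / mm α q)).prod := by
    have h1 : 0 < (l.map (fun q => 1 - 1 / mm α q)).prod * Real.log X :=
      lt_of_lt_of_le (by positivity) hprod'
    exact (pos_iff_pos_of_mul_pos h1).2 hLX
  have h1 : 2 / (l.map (fun q => 1 - 1 / mm α q)).prod ≤ 2 * C * Real.log X := by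
    rw [div_le_iff₀ hpr0]
    rw [div_le_iff₀ hC] at hprod'
    nlinarith
  have h2 : 1 / Real.log (Real.log X) ≤ 1 := by
    rw [div_le_one (by linarith)]; exact hll
  have h3 : 2 * (1 / Real.log (Real.log X) + 2 * SS (mm α) l) ≤ 2 * (1 + 2 * C) := by linarith
  have hmD : 0 ≤ (m : ℝ) * Real.log D := by positivity
  have h4 := mul_le_mul_of_nonneg_right h1 hS1
  have h5 := mul_le_mul_of_nonneg_right (mul_le_mul_of_nonneg_right h3 hmD) hS0
  have h6 : 0 ≤ Real.log X * S1 := mul_nonneg hLX.le hS1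
  have h7 : 0 ≤ m * Real.log D * S0 := mul_nonneg hmD hS0
  calc (H.card : ℝ) * S0 ≤ _ := hmain
    _ ≤ 2 * C * Real.log X * S1 + 2 * (1 + 2 * C) * (m * Real.log D) * S0 := add_le_add h4 h5
    _ ≤ _ := by
        have h8 : 0 ≤ 2 * (1 + 2 * C) * (Real.log X * S1) := by positivity
        have h9 : 0 ≤ 2 * C * (m * Real.log D * S0) := by positivity
        linarith

/-- The inequality for sums of squares of functions of level `D`. -/
theorem main_int : ∃ C : ℝ, 0 < C ∧ ∃ X₀ : ℝ, ∀ X : ℝ, X₀ ≤ X → ∀ (P H : Finset ℕ) (m : ℕ),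
    (∀ p ∈ P, p.Prime ∧ Real.log X ≤ p ∧ (p : ℝ) ≤ X) →
    (∀ p ∈ P, ∀ a : ℕ, (H.filter (fun h => h ≡ a [MOD p])).card ≤ m) →
    ∀ D : ℝ, 1 ≤ D → ∀ (r : ℕ) (v : Fin r → ℕ → ℕ → ℝ), (∀ j d n, v j d (n + d) = v j d n) →
    ∀ w : ℕ → ℝ, (∀ n, w n = ∑ j : Fin r,
      (∑ d ∈ (∏ p ∈ P, p).divisors.filter (fun d : ℕ => (d : ℝ) ≤ D), v j d n) ^ 2) →
    (H.card : ℝ) * ∑ n ∈ range (∏ p ∈ P, p), w n ≤
      C * (Real.log X * ∑ n ∈ range (∏ p ∈ P, p),
          w n * ((H.filter (fun h => ∀ p ∈ P, ¬ p ∣ n + h)).card : ℝ) +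
        m * Real.log D * ∑ n ∈ range (∏ p ∈ P, p), w n) := by
  obtain ⟨C, hC, X₀, hX₀⟩ := main_one
  refine ⟨C, hC, X₀, fun X hX P H m hP hH D hD r v hv w hw => ?_⟩
  have h1 := fun j => (hX₀ X hX).2 P H m hP hH D hD (v j) (hv j)
  have h2 := sum_le_sum fun (j : Fin r) (_ : j ∈ univ) => h1 j
  rw [← mul_sum, ← mul_sum, sum_add_distrib, ← mul_sum, ← mul_sum] at h2
  have e1 : ∑ j : Fin r, ∑ n ∈ range (∏ p ∈ P, p),
      (∑ d ∈ (∏ p ∈ P, p).divisors.filter (fun d : ℕ => (d : ℝ) ≤ D), v j d n) ^ 2 =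
      ∑ n ∈ range (∏ p ∈ P, p), w n := by
    rw [sum_comm]
    exact sum_congr rfl fun n _ => (hw n).symm
  have e2 : ∑ j : Fin r, ∑ n ∈ range (∏ p ∈ P, p),
      (∑ d ∈ (∏ p ∈ P, p).divisors.filter (fun d : ℕ => (d : ℝ) ≤ D), v j d n) ^ 2 *
        (surv P H n : ℝ) =
      ∑ n ∈ range (∏ p ∈ P, p),
        w n * ((H.filter (fun h => ∀ p ∈ P, ¬ p ∣ n + h)).card : ℝ) := by
    rw [sum_comm]
    apply sum_congr rfl
    intro n _
    rw [← sum_mul, hw n]
    rfl
  rw [e1, e2] at h2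
  exact h2

end Pool.Agent.H76.BR
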